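import Pool.Agent.Helper18.AW.Abs

/-!
# Alperin's weight conjecture and wreath products

`p` is a prime, `k` an algebraically closed field of characteristic `p`. The definitions (blocks,
weights counted with the Brauer homomorphism, simple modules, Alperin's conjecture `AWC` for all blocks
of a group, wreath products `Wr S H Ω = S^Ω ⋊ H`) are in `Pool.Agent.Helper18.AW.Defs` and
`Pool.Agent.Helper18.BR.Defs`; they are those of the problem.

`Companions p k G X`: every block `z` of `kG` has a companion block `e` of `kX`: the block algebras are
Morita equivalent, and `e` and `z` have the same number of conjugacy classes of weights. We show that a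
wreath product `S^Ω ⋊ H`, `S ≠ 1` of order prime to `p`, contains companions of all blocks of all
subgroups of `H` which are stabilizers of points of `Ω` or, if `S` is abelian, of subsets of `Ω`. In the
regular action all subgroups of `H` are stabilizers of subsets. So Alperin's conjecture for one group,
the regular wreath product of a group of prime order `r ≠ p` with `H`, implies Alperin's conjecture for
all subgroups of `H`, and the sequence of the regular wreath products `C_r ≀ A_n` decides the conjecture
for all finite groups.
-/

set_option autoImplicit false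

open Pool.Agent.Helper18.AW Pool.Agent.Helper18.BR

namespace Pool.Agent.Results.MP_78bba1_al.AlternatingTops

/-- (1) Let `S ≠ 1` be a finite group of order prime to `p` and let the finite group `H` act on the
finite set `Ω`. The blocks of the stabilizer of a point of `Ω` have companions among the blocks of
`S^Ω ⋊ H`; if `S` is abelian then this is also true for the blocks of the stabilizer `G` of a nonempty
subset `Δ` of `Ω`.
(2) If the blocks of `G` have companions among the blocks of `X`, then Alperin's conjecture for the
blocks of `X` implies Alperin's conjecture for the blocks of `G`.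
(3) Let `r ≠ p` be a prime. Alperin's conjecture for the blocks of the regular wreath product
`C_r ≀ H = C_r^H ⋊ H` implies Alperin's conjecture for the blocks of all subgroups of `H`.
(4) Let `r ≠ p` be a prime and `N` an infinite set of natural numbers. Alperin's conjecture for the
blocks of all finite groups is equivalent to Alperin's conjecture for the blocks of the regular wreath
products `C_r ≀ A_n`, `n ∈ N`. -/
theorem result (p : ℕ) [Fact p.Prime] (k : Type) [Field k] [IsAlgClosed k] [CharP k p] :
    (∀ (H Ω : Type) [Group H] [Finite H] [MulAction H Ω] [Finite Ω],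
      (∀ (S : Type) [Group S] [Finite S] [Nontrivial S], ¬ p ∣ Nat.card S → ∀ w : Ω,
        Companions p k (MulAction.stabilizer H w) (Wr S H Ω)) ∧
      ∀ (S : Type) [CommGroup S] [Finite S] [Nontrivial S], ¬ p ∣ Nat.card S →
        ∀ (Δ : Set Ω) (G : Subgroup H), Δ.Nonempty →
          (∀ h : H, h ∈ G ↔ ∀ w, h • w ∈ Δ ↔ w ∈ Δ) → Companions p k G (Wr S H Ω)) ∧
    (∀ (G X : Type) [Group G] [Finite G] [Group X] [Finite X],
      Companions p k G X → AWC p k X → AWC p k G) ∧
    ∀ (r : ℕ) [Fact r.Prime], r ≠ p →
      (∀ (H : Type) [Group H] [Finite H], AWC p k (Wr (Multiplicative (ZMod r)) H H) →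
        ∀ G : Subgroup H, AWC p k G) ∧
      ∀ N : Set ℕ, N.Infinite →
        ((∀ (X : Type) [Group X] [Finite X], AWC p k X) ↔
          ∀ n ∈ N, AWC p k (Wr (Multiplicative (ZMod r)) (alternatingGroup (Fin n))
            (alternatingGroup (Fin n)))) := by
  refine ⟨fun H Ω _ _ _ _ => ⟨fun S _ _ _ hS w => ?_, fun S _ _ _ hS Δ G hne hG => ?_⟩,
    fun G X _ _ _ _ hc h => hc.awc h, fun r _ hrp => ?_⟩
  · refine companions_point p k (i := (MulAction.stabilizer H w).subtype)
      (Subgroup.subtype_injective _) S hS (w := w) fun h => ?_
    rw [Subgroup.range_subtype]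
    rfl
  · refine companions_subset p k (i := G.subtype) (Subgroup.subtype_injective _) S hS (Δ := Δ)
      (fun h => ?_) hne
    rw [Subgroup.range_subtype]
    exact (hG h).symm
  · have hr : r.Prime := Fact.out
    have : Nontrivial (Multiplicative (ZMod r)) := inferInstanceAs (Nontrivial (ZMod r))
    have hS : ¬ p ∣ Nat.card (Multiplicative (ZMod r)) := by
      rw [Nat.card_congr Multiplicative.toAdd, Nat.card_zmod]
      intro hd
      exact hrp ((Nat.prime_dvd_prime_iff_eq (Fact.out : p.Prime) hr).1 hd).symm
    refine ⟨fun H _ _ h G => (companions_reg p k (i := G.subtype) (Subgroup.subtype_injective _)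
      _ hS).awc h, fun N hN => ⟨fun h n _ => h _, fun h G _ _ => ?_⟩⟩
    obtain ⟨n, hn, hn2⟩ := hN.exists_gt (2 * Nat.card G)
    obtain ⟨i, hi⟩ := exists_alt G n hn2.le
    exact (companions_reg p k hi _ hS).awc (h n hn)

end Pool.Agent.Results.MP_78bba1_al.AlternatingTops
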