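import Pool.Agent.Helper15.AWC.Main

/-!
# Minimal counterexamples to Alperin's weight conjecture and their normal subgroups

For a finite group `G` let `l(G)` be the number of classes of `p`-regular elements and `w(G)` the
number of classes of `p`-weights. Summed over the blocks, Alperin's conjecture is `l(G) = w(G)`.

Let `H` be a finite group without nontrivial normal `p`-subgroup, such that the conjecture holds for
all sections of smaller order (precisely, for all smaller groups in a class `X` which contains `H`
and is closed under subgroups and quotients by normal `p`-subgroups). Let `M` be a nontrivial normal
subgroup of `H` such that `H/M` is in `X` and is not an extension of a `p`-group by an abelian group.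
We prove that the conjecture holds for `H` if all `H`-invariant irreducible characters of `M` of
`p`-defect zero extend to `H`, for instance if there are no such characters.

Proof. Let `Π` be a surface group. For a surjection `φ : Π → H/M` the number of lifts `Π → H` is
expressed by the invariant characters of `M`. When the genus tends to `1` `p`-adically, it tends to
`|M|` times the number of invariant characters of defect zero, if these extend. So the number of
surjections from `Π` onto supplements `K` of `M` in `H` tends to a multiple of the limit of the number
of surjections onto `H/M`, and this limit is `0` by the conjecture for the sections of `H/M`. The same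
holds for the proper supplements `K`, and so for `H`. This gives the conjecture for `H`.

Definitions in the files of the library: `numRegularClasses` is `l`, `numWeights` is `w`
(`Y63/AWC/Defs.lean`); `Closed p X` says that the class `X` of groups is closed under isomorphisms,
subgroups and quotients by normal `p`-subgroups (`Y63/NV/Main.lean`); `Reduced p H` says that `H` has
no normal subgroup of index `p` and no nontrivial normal `p`-subgroup (`Y63/NV/Free2.lean`).
-/

set_option autoImplicit false

namespace Pool.Agent.Results.MP_78bba1_al.ExtendibleDefectZero

open Pool.Agent.Y63.AWC (numWeights numRegularClasses)
open Pool.Agent.Y63.NV (Closed Reduced pgroup_top XP)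
open Pool.Agent.Helper15.AW (Critical)

/-- **A reduction theorem.** Let `p` be a prime and `X` a class of groups closed under isomorphisms,
subgroups and quotients by normal `p`-subgroups. The equality `l(Γ) = w(Γ)` holds for all finite
groups `Γ` with a normal subgroup in `X` of `p`-power index if (and only if) it holds for each finite
critical group `H` in `X` for which it holds for all such groups of order less than `|H|`. Critical
(`Helper15/AWC/Main.lean`) means: `H` is in `X`, `H` is nonabelian, `H` has no normal subgroup of
index `p` and no nontrivial normal `p`-subgroup, and for every nontrivial normal subgroup `M` of `H`
such that `H/M` is in `X` and the commutator subgroup of `H/M` is not a `p`-group there is an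
`H`-invariant irreducible character of `M` of `p`-defect zero which is not the restriction of an
irreducible character of `H`. -/
theorem result (p : ℕ) [Fact p.Prime] (X : ∀ (H : Type) [Group H], Prop) (hX : Closed p X) :
    (∀ (H : Type) [Group H] [Finite H], Critical p X H →
      (∀ (L : Type) [Group L] [Finite L] (K : Subgroup L) [K.Normal], X K → IsPGroup p (L ⧸ K) →
        Nat.card L < Nat.card H → numRegularClasses p L = numWeights p L) →
      numRegularClasses p H = numWeights p H) ↔
    ∀ (Γ : Type) [Group Γ] [Finite Γ] (G : Subgroup Γ) [G.Normal], X G → IsPGroup p (Γ ⧸ G) →
      numRegularClasses p Γ = numWeights p Γ := by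
  constructor
  · intro h Γ _ _ G hG hXG hpG
    refine Pool.Agent.Helper15.AW.awc_of_critical' X hX ?_ (Nat.card Γ) Γ le_rfl ⟨G, hG, hXG, hpG⟩
    intro H _ _ hH hsmall
    exact h H hH fun L _ _ K hK hXK hpK hlt => hsmall L ⟨K, hK, hXK, hpK⟩ hlt
  · intro h H _ _ hH _
    exact h H ⊤ (hX.iso _ _ hH.mem ⟨Subgroup.topEquiv.symm⟩) (pgroup_top p H)

end Pool.Agent.Results.MP_78bba1_al.ExtendibleDefectZero
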