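import Pool.Agent.Helper15.SV.Min3

/-!
# A reduction of Alperin's weight conjecture to almost simple groups

For a finite group `G` let `l(G)` be the number of classes of `p`-regular elements and `w(G)` the
number of classes of `p`-weights. Summed over the blocks, Alperin's conjecture is `l(G) = w(G)`.

We prove that the equality `l = w` holds for all finite groups if it holds for the groups `H` which
have a quasisimple normal subgroup `N` such that `C_H(N) = Z(H) ≤ N`, so that `H/Z(H)` is almost
simple with socle `N/Z(N)`. Here only the numerical equality is used, for `H` and for all smaller
groups, and no action of automorphisms. Moreover one can assume that `O_p(H) = 1`, that `H` has no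
normal subgroup of index `p`, that `Z(H)` is cyclic and contained in `H'`, and that `H/N` has a normal
elementary abelian Sylow `p`-subgroup whose quotient is abelian and generated by two elements.

Proof. Let `H` be a group with `l(H) ≠ w(H)` such that `l(L) = w(L)` for all groups `L` for which the
pair `(|L : Z(L)|, |L|)` is smaller than `(|H : Z(H)|, |H|)` in the lexicographic order.

(1) (`Helper15/AWC`) By counting surjections from surface groups of genus `g` (for `g → 1`
`p`-adically) onto supplements of a normal subgroup `M`, and onto central extensions of `H/M` which
control the invariant characters of `M` of defect zero, one sees that `Z(H)` is cyclic and contained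
in `H'`, that `O_p(H) = 1`, that `H` has no normal subgroup of index `p`, and that `H` has a smallest
noncentral normal subgroup `N`, where `H/N` is an extension of a `p`-group by an abelian group with
two generators, and `N` is perfect if `H` is not solvable.

(2) (`Helper15/SV`) Let `H` be solvable. Then `N' = N ∩ Z(H)`, and the invariant characters of `N` are
fully ramified over `N'` or trivial. Let `K` be the normalizer of a Sylow `p`-subgroup. It is shown
that the operators which induce the action of a complement of the Sylow subgroup in `K` on such a
character commute (by a computation of traces). This gives the number of surjections onto the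
supplements of `N`, compared with those onto subgroups of the conjugates of `K`, and it follows that
the number of surjections onto `H` tends to zero.

(3) (`Helper15/QS`) Let `N` be perfect. Then `N/Z(H)` is a direct product of simple groups which are
permuted by `H`. Let `H₁` be a maximal subgroup of `H` containing the normalizer of such a factor
`R/Z(H)` (`H₁ = H` if `N = R`). Then `H/Z(H)` embeds into a wreath product of the group
`A = H₁/C_{H₁}(R₁)` with the group `H/H₁`; `R₁` is the product of the conjugates of `R` under `H₁`. The
invariant characters of defect zero of the base group correspond to those of one factor, and their
cohomology classes are tensor induced. The number of surjections of the surface group onto `H` is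
computed by a sum over those onto the subgroups of the wreath product covering `H/N`. The
homomorphisms to the wreath product correspond to those from a subgroup (the fundamental group of
a covering surface) to `A`, and this is compared with the central extensions of `A`, for which
`l = w` is known. This gives that the number of surjections tends to zero `p`-adically, and so
`l(H) = w(H)`, except in the case `N = R` when `H/N` has a normal elementary abelian Sylow
`p`-subgroup.

Definitions in the files of the library: `numRegularClasses` is `l`, `numWeights` is `w`
(`Y63/AWC/Defs.lean`); `Reduced p H` says that `H` has no normal subgroup of index `p` and no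
nontrivial normal `p`-subgroup (`Y63/NV/Free2.lean`). The definitions of `ClosedC`, `Smaller`,
`Quasisimple`, `AlmostSimple` and `PE2` are in `Helper15/AWC/DefsC.lean`.
-/

set_option autoImplicit false

namespace Pool.Agent.Results.MP_78bba1_al.QuasisimpleReduction

open Pool.Agent.Y63.AWC (numWeights numRegularClasses)
open Pool.Agent.Y63.NV (pgroup_top)
open Pool.Agent.Helper15.AW (ClosedC Smaller)
open Pool.Agent.Helper15.QS (AlmostSimple)
open Pool.Agent.Helper15.SV (awc_of_almost)

/-- **Reduction to almost simple groups.** Let `p` be a prime and `X` a class of groups closed under
isomorphisms, subgroups, quotients and under central extensions of finite groups by groups of order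
prime to `p` (for instance the class of all groups). The equality `l(Γ) = w(Γ)` holds for all finite
groups `Γ` with a normal subgroup in `X` of `p`-power index if (and only if) it holds for each finite
group `H` in `X` with the following properties:
(1) `l(L) = w(L)` for all finite groups `L` in `X` such that `(|L : Z(L)|, |L|)` is lexicographically
smaller than `(|H : Z(H)|, |H|)`;
(2) `p` divides `|H|`, `H` has no normal subgroup of index `p` and no nontrivial normal `p`-subgroup;
(3) `Z(H)` is cyclic and contained in the commutator subgroup of `H`;
(4) `H` has a quasisimple normal subgroup `N` such that `C_H(N) = Z(H) ≤ N` and such that `H/N` has a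
normal elementary abelian Sylow `p`-subgroup whose quotient is abelian and generated by two
elements. -/
theorem result (p : ℕ) [Fact p.Prime] (X : ∀ (H : Type) [Group H], Prop) (hX : ClosedC p X) :
    (∀ (H : Type) [Group H] [Finite H], X H → AlmostSimple p H →
      (∀ (L : Type) [Group L] [Finite L], X L → Smaller L H →
        numRegularClasses p L = numWeights p L) → numRegularClasses p H = numWeights p H) ↔
    ∀ (Γ : Type) [Group Γ] [Finite Γ] (G : Subgroup Γ) [G.Normal], X G → IsPGroup p (Γ ⧸ G) →
      numRegularClasses p Γ = numWeights p Γ := by
  constructor
  · intro h Γ _ _ G hG hXG hpG
    exact awc_of_almost hX h (Subgroup.center G).index Γ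
      ⟨G, hG, ⟨hXG, inferInstance, le_rfl⟩, hpG⟩
  · intro h H _ _ hH _ _
    exact h H ⊤ (hX.iso _ _ hH ⟨Subgroup.topEquiv.symm⟩) (pgroup_top p H)

end Pool.Agent.Results.MP_78bba1_al.QuasisimpleReduction
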