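import Pool.Agent.Helper15.AWC.Main

/-!
# Alperin's weight conjecture and surjections from surface groups

For a finite group `G` let `l(G)` be the number of classes of `p`-regular elements and `w(G)` the
number of classes of `p`-weights. Summed over the blocks, Alperin's conjecture is `l(G) = w(G)`.
Let `numSurj g H` be the number of surjective homomorphisms from the fundamental group `Π_g` of the
closed orientable surface of genus `g` onto `H` (`Helper15/AWC/Count.lean`); for `g = 1` this is `0`
if `H` is nonabelian.

We prove that the conjecture says that the function `g ↦ |Epi(Π_g, H)|` is `p`-adically continuous at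
`g = 1` for the groups `H` without nontrivial normal `p`-subgroups.

Definitions in the files of the library: `numRegularClasses` is `l`, `numWeights` is `w`,
`numDefectZero` is the number `z` of irreducible characters of `p`-defect zero
(`Y63/AWC/Defs.lean`); `Closed p X` says that the class `X` of groups is closed under isomorphisms,
subgroups and quotients by normal `p`-subgroups (`Y63/NV/Main.lean`); `Reduced p H` says that `H` has
no normal subgroup of index `p` and no nontrivial normal `p`-subgroup (`Y63/NV/Free2.lean`).
-/

set_option autoImplicit false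

namespace Pool.Agent.Results.MP_78bba1_al.SurjectionContinuity

open Pool.Agent.Y63.AWC (numDefectZero numWeights numRegularClasses)
open Pool.Agent.Y63.NV (Closed Reduced pgroup_top)
open Pool.Agent.Helper15.AW (numSurj)

/-- Let `p` be a prime and `X` a class of groups closed under isomorphisms, subgroups and quotients
by normal `p`-subgroups. The following are equivalent.
1. `l(G) = w(G)` for all finite groups `G` in `X`.
2. `l(Γ) = w(Γ)` for all finite groups `Γ` with a normal subgroup in `X` of `p`-power index.
3. For all finite groups `H` in `X` without nontrivial normal `p`-subgroups the numbers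
`|Epi(Π_g, H)|` and `|Epi(Π_1, H)|` are congruent modulo `p^(N+1)` whenever `g ≥ 2` and
`p^N (p - 1) ∣ g - 1`.
4. For all nonabelian reduced finite groups `H` in `X` and all `N` there is one such `g` for which
`|Epi(Π_g, H)|` is divisible by `p^(N+1)`.
5. For all nonabelian reduced finite groups `H` in `X` one has `∑_{K ≤ H} μ(K, H) |K| z(K) = 0`: if
`e` is the function on the subgroups of `H` with `∑_{K ≤ L} e(K) = |L| z(L)` for all `L ≤ H`, then
`e(H) = 0`. -/
theorem result (p : ℕ) [Fact p.Prime] (X : ∀ (H : Type) [Group H], Prop) (hX : Closed p X) :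
    List.TFAE [
      ∀ (G : Type) [Group G] [Finite G], X G → numRegularClasses p G = numWeights p G,
      ∀ (Γ : Type) [Group Γ] [Finite Γ] (G : Subgroup Γ) [G.Normal], X G →
        IsPGroup p (Γ ⧸ G) → numRegularClasses p Γ = numWeights p Γ,
      ∀ (H : Type) [Group H] [Finite H], X H →
        (∀ M : Subgroup H, M.Normal → IsPGroup p M → M = ⊥) →
        ∀ N g : ℕ, 2 ≤ g → p ^ N * (p - 1) ∣ g - 1 →
          (p : ℤ) ^ (N + 1) ∣ (numSurj g H : ℤ) - numSurj 1 H,
      ∀ (H : Type) [Group H] [Finite H], X H → Reduced p H → (∃ a b : H, a * b ≠ b * a) →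
        ∀ N : ℕ, ∃ g : ℕ, 2 ≤ g ∧ p ^ N * (p - 1) ∣ g - 1 ∧ p ^ (N + 1) ∣ numSurj g H,
      ∀ (H : Type) [Group H] [Finite H], X H → Reduced p H → (∃ a b : H, a * b ≠ b * a) →
        ∀ e : Subgroup H → ℤ, (∀ L : Subgroup H, ∑ᶠ K : {K : Subgroup H // K ≤ L}, e K =
          (Nat.card L : ℤ) * numDefectZero p L) → e ⊤ = 0] := by
  tfae_have 2 → 1 := by
    intro h G _ _ hG
    exact h G ⊤ (hX.iso _ _ hG ⟨Subgroup.topEquiv.symm⟩) (pgroup_top p G)
  tfae_have 1 → 3 := by
    intro h H _ _ hH hR N g hg hd
    exact Pool.Agent.Helper15.AW.cont_of_awc X hX h H hH hR hg hd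
  tfae_have 3 → 4 := by
    intro h H _ _ hH hR hab N
    obtain ⟨g, hg, hd⟩ := Pool.Agent.Helper15.AW.exists_genus (p := p) N
    refine ⟨g, hg, hd, ?_⟩
    have h1 := h H hH hR.radical N g hg hd
    rw [Pool.Agent.Helper15.AW.numSurj_one_zero hab] at h1
    exact_mod_cast (by simpa using h1 : (p : ℤ) ^ (N + 1) ∣ (numSurj g H : ℤ))
  tfae_have 4 → 2 := by
    intro h Γ _ _ G hG hXG hp
    refine Pool.Agent.Helper15.AW.awc_of_critical X hX ?_ (Nat.card Γ) Γ le_rfl ⟨G, hG, hXG, hp⟩
    intro H _ _ hH N
    obtain ⟨g, hg, hd, h1⟩ := h H hH.mem hH.reduced hH.nonabelian N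
    exact ⟨g, hg, hd, by exact_mod_cast h1⟩
  tfae_have 4 ↔ 5 := by
    refine forall_congr' fun H => forall_congr' fun _ => forall_congr' fun _ =>
      forall_congr' fun _ => forall_congr' fun _ => forall_congr' fun _ => ?_
    refine Iff.trans ?_ (Pool.Agent.Helper15.AW.critical_finite (p := p) H)
    refine forall_congr' fun N => exists_congr fun g => and_congr_right fun _ =>
      and_congr_right fun _ => ?_
    norm_cast
  tfae_finish

end Pool.Agent.Results.MP_78bba1_al.SurjectionContinuity
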